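import Pool.Agent.FTU.Stmts

/-!
# FTU row BGA: the background field
-/

set_option autoImplicit false

open MeasureTheory Complex

noncomputable section

namespace Pool.Agent.FTU.H64

open Pool.Agent.Helper49_Pauli Pool.Agent.MBX Pool.Agent.FTU

/-- the jets of a field component which is a sum of three products -/
theorem jets3 (hJ : JfdStmt) {ι : Type} [Fintype ι] (S : Sys ι) (e : ι → ℝ) (c : Fin 3)
    (a1 a2 a3 : ℝ) (A1 A2 A3 B1 B2 B3 D1 D2 D3 : ℝ → ℝ)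
    (hA1 : ContDiff ℝ (⊤ : ℕ∞) A1) (hA2 : ContDiff ℝ (⊤ : ℕ∞) A2) (hA3 : ContDiff ℝ (⊤ : ℕ∞) A3)
    (hB1 : ContDiff ℝ (⊤ : ℕ∞) B1) (hB2 : ContDiff ℝ (⊤ : ℕ∞) B2) (hB3 : ContDiff ℝ (⊤ : ℕ∞) B3)
    (hD1 : ContDiff ℝ (⊤ : ℕ∞) D1) (hD2 : ContDiff ℝ (⊤ : ℕ∞) D2) (hD3 : ContDiff ℝ (⊤ : ℕ∞) D3)
    (h : ∀ x : X3, S.fld e x c = a1 * (A1 (x 0) * B1 (x 1) * D1 (x 2)) +
      a2 * (A2 (x 0) * B2 (x 1) * D2 (x 2)) + a3 * (A3 (x 0) * B3 (x 1) * D3 (x 2)))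
    (p q r : ℕ) (z : ℝ) : ∑ i, e i * S.jm i c p q r z =
      a1 * (iteratedDeriv p A1 0 * iteratedDeriv q B1 0 * iteratedDeriv r D1 z) +
      a2 * (iteratedDeriv p A2 0 * iteratedDeriv q B2 0 * iteratedDeriv r D2 z) +
      a3 * (iteratedDeriv p A3 0 * iteratedDeriv q B3 0 * iteratedDeriv r D3 z) := by
  have h1 := hJ ι S e c 3 ![fun s => a1 * A1 s, fun s => a2 * A2 s, fun s => a3 * A3 s]
    ![B1, B2, B3] ![D1, D2, D3]
    (by
      intro a
      fin_cases a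
      · exact contDiff_const.mul hA1
      · exact contDiff_const.mul hA2
      · exact contDiff_const.mul hA3)
    (by
      intro a
      fin_cases a
      · exact hB1
      · exact hB2
      · exact hB3)
    (by
      intro a
      fin_cases a
      · exact hD1
      · exact hD2
      · exact hD3)
    (by
      intro x
      rw [h x, Fin.sum_univ_three]
      change _ = (a1 * A1 (x 0)) * B1 (x 1) * D1 (x 2) +
        (a2 * A2 (x 0)) * B2 (x 1) * D2 (x 2) + (a3 * A3 (x 0)) * B3 (x 1) * D3 (x 2)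
      ring) p q r z
  rw [h1, Fin.sum_univ_three]
  have e1 : iteratedDeriv p (fun s => a1 * A1 s) 0 = a1 * iteratedDeriv p A1 0 :=
    iteratedDeriv_const_mul_field a1 A1
  have e2 : iteratedDeriv p (fun s => a2 * A2 s) 0 = a2 * iteratedDeriv p A2 0 :=
    iteratedDeriv_const_mul_field a2 A2
  have e3 : iteratedDeriv p (fun s => a3 * A3 s) 0 = a3 * iteratedDeriv p A3 0 :=
    iteratedDeriv_const_mul_field a3 A3
  change iteratedDeriv p (fun s => a1 * A1 s) 0 * iteratedDeriv q B1 0 * iteratedDeriv r D1 z +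
    iteratedDeriv p (fun s => a2 * A2 s) 0 * iteratedDeriv q B2 0 * iteratedDeriv r D2 z +
    iteratedDeriv p (fun s => a3 * A3 s) 0 * iteratedDeriv q B3 0 * iteratedDeriv r D3 z = _
  rw [e1, e2, e3]
  ring

theorem prod_err {a b c a0 b0 c0 d C : ℝ} (hC : 0 ≤ C) (hd : 0 ≤ d) (hdC : d ≤ C)
    (ha : |a - a0| ≤ d) (hb : |b - b0| ≤ d) (hc : |c - c0| ≤ d)
    (ha0 : |a0| ≤ 6) (hb0 : |b0| ≤ 6) (hc0 : |c0| ≤ 6) :
    |a * b * c - a0 * b0 * c0| ≤ 3 * (6 + C) ^ 2 * d := by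
  have hb' : |b| ≤ 6 + C := by
    have h1 : |b| ≤ |b - b0| + |b0| := by
      have h2 := abs_add_le (b - b0) b0
      rwa [sub_add_cancel] at h2
    linarith
  have hc' : |c| ≤ 6 + C := by
    have h1 : |c| ≤ |c - c0| + |c0| := by
      have h2 := abs_add_le (c - c0) c0
      rwa [sub_add_cancel] at h2
    linarith
  have e1 : a * b * c - a0 * b0 * c0 =
      (a - a0) * b * c + a0 * (b - b0) * c + a0 * b0 * (c - c0) := by ring
  have i1 : |(a - a0) * b * c| ≤ d * (6 + C) * (6 + C) := by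
    rw [abs_mul, abs_mul]
    gcongr
  have i2 : |a0 * (b - b0) * c| ≤ (6 + C) * d * (6 + C) := by
    rw [abs_mul, abs_mul]
    gcongr
    linarith
  have i3 : |a0 * b0 * (c - c0)| ≤ (6 + C) * (6 + C) * d := by
    rw [abs_mul, abs_mul]
    gcongr
    · linarith
    · linarith
  rw [e1]
  have h3 := abs_add_le ((a - a0) * b * c + a0 * (b - b0) * c) (a0 * b0 * (c - c0))
  have h4 := abs_add_le ((a - a0) * b * c) (a0 * (b - b0) * c)
  calc |(a - a0) * b * c + a0 * (b - b0) * c + a0 * b0 * (c - c0)|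
      ≤ d * (6 + C) * (6 + C) + (6 + C) * d * (6 + C) + (6 + C) * (6 + C) * d := by linarith
    _ = 3 * (6 + C) ^ 2 * d := by ring

theorem comb3 {a1 a2 a3 X1 X2 X3 Y1 Y2 Y3 E g M : ℝ}
    (h1 : |X1 - Y1| ≤ E) (h2 : |X2 - Y2| ≤ E) (h3 : |X3 - Y3| ≤ E)
    (ha1 : |a1| ≤ g / 3) (ha2 : |a2| ≤ g / 3) (ha3 : |a3| ≤ g / 3) (hM : g * E ≤ M) :
    |a1 * X1 + a2 * X2 + a3 * X3 - (a1 * Y1 + a2 * Y2 + a3 * Y3)| ≤ M := by
  have hg : 0 ≤ g / 3 := (abs_nonneg _).trans ha1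
  have e1 : a1 * X1 + a2 * X2 + a3 * X3 - (a1 * Y1 + a2 * Y2 + a3 * Y3) =
      a1 * (X1 - Y1) + a2 * (X2 - Y2) + a3 * (X3 - Y3) := by ring
  have i1 : |a1 * (X1 - Y1)| ≤ g / 3 * E := by
    rw [abs_mul]
    exact mul_le_mul ha1 h1 (abs_nonneg _) hg
  have i2 : |a2 * (X2 - Y2)| ≤ g / 3 * E := by
    rw [abs_mul]
    exact mul_le_mul ha2 h2 (abs_nonneg _) hg
  have i3 : |a3 * (X3 - Y3)| ≤ g / 3 * E := by
    rw [abs_mul]
    exact mul_le_mul ha3 h3 (abs_nonneg _) hg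
  rw [e1]
  have h5 := abs_add_le (a1 * (X1 - Y1) + a2 * (X2 - Y2)) (a3 * (X3 - Y3))
  have h4 := abs_add_le (a1 * (X1 - Y1)) (a2 * (X2 - Y2))
  linarith

theorem cost_bound {et l C alpha ell : ℝ} (het : 0 < et) (het1 : et ≤ 1) (hl : 1 ≤ l) (hC : 0 < C)
    (ha : 0 < alpha) (hell : 0 < ell) :
    2 / alpha * ell ^ 3 * (((et ^ 5)⁻¹) ^ 2 / 18 * (C * ((et ^ 3)⁻¹) ^ (2 * 0 + 1) / ell *
      (C * ((et ^ 3)⁻¹) ^ (2 * 3 + 1) / ell) * (C * (l * (et ^ 3)⁻¹) / ell)) +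
      ((et ^ 4)⁻¹) ^ 2 / 4 * (C * ((et ^ 3)⁻¹) ^ (2 * 2 + 1) / ell *
      (C * ((et ^ 3)⁻¹) ^ (2 * 0 + 1) / ell) * (C * (l * (et ^ 3)⁻¹) / ell))) ≤
      2 / alpha * C ^ 3 * (et ^ 37)⁻¹ * l := by
  obtain ⟨u, hu⟩ : ∃ u : ℝ, u = et⁻¹ := ⟨_, rfl⟩
  have hu1 : 1 ≤ u := by
    rw [hu]
    exact (one_le_inv₀ het).2 het1
  have e3 : (et ^ 3)⁻¹ = u ^ 3 := by rw [hu, inv_pow]
  have e4 : (et ^ 4)⁻¹ = u ^ 4 := by rw [hu, inv_pow]
  have e5 : (et ^ 5)⁻¹ = u ^ 5 := by rw [hu, inv_pow]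
  have e37 : (et ^ 37)⁻¹ = u ^ 37 := by rw [hu, inv_pow]
  rw [e3, e4, e5, e37]
  have e1 : 2 / alpha * ell ^ 3 * ((u ^ 5) ^ 2 / 18 * (C * (u ^ 3) ^ (2 * 0 + 1) / ell *
      (C * (u ^ 3) ^ (2 * 3 + 1) / ell) * (C * (l * u ^ 3) / ell)) +
      (u ^ 4) ^ 2 / 4 * (C * (u ^ 3) ^ (2 * 2 + 1) / ell *
      (C * (u ^ 3) ^ (2 * 0 + 1) / ell) * (C * (l * u ^ 3) / ell))) =
      2 / alpha * C ^ 3 * (u ^ 37 / 18 + u ^ 29 / 4) * l := by
    field_simp
    ring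
  rw [e1]
  have h1 : u ^ 29 ≤ u ^ 37 := pow_le_pow_right₀ hu1 (by norm_num)
  have h2 : 0 ≤ u ^ 37 := by positivity
  have h3 : u ^ 37 / 18 + u ^ 29 / 4 ≤ u ^ 37 := by linarith
  have h4 : 0 ≤ 2 / alpha * C ^ 3 := by positivity
  exact mul_le_mul_of_nonneg_right (mul_le_mul_of_nonneg_left h3 h4) (by linarith)

theorem freq_bound {et ell : ℝ} {K : ℕ} (het : 0 < et) (het1 : et ≤ 1 / 4) (hell : 0 < ell)
    (hK : 2 * Real.pi / ell * K ≤ 8 * Real.pi * et ^ 3) (n : Fin 3 → ℤ)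
    (hn : n ∈ Finset.Icc (fun _ : Fin 3 => -(K : ℤ)) (fun _ => (K : ℤ))) :
    Helper49_Pauli.sq (fun j => 2 * Real.pi / ell * (n j : ℝ)) < 1 := by
  have hpi := Real.pi_pos
  have hpi2 : Real.pi < 3.15 := Real.pi_lt_d2
  have h1 : ∀ j, (2 * Real.pi / ell * (n j : ℝ)) ^ 2 ≤ 1 / 4 := by
    intro j
    rw [Finset.mem_Icc] at hn
    have h2 : (-(K : ℤ)) ≤ n j := hn.1 j
    have h3 : n j ≤ (K : ℤ) := hn.2 j
    have h2' : -(K : ℝ) ≤ (n j : ℝ) := by exact_mod_cast h2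
    have h3' : (n j : ℝ) ≤ (K : ℝ) := by exact_mod_cast h3
    have h4 : |(n j : ℝ)| ≤ K := abs_le.2 ⟨h2', h3'⟩
    have h5 : 0 < 2 * Real.pi / ell := by positivity
    have h6 : |2 * Real.pi / ell * (n j : ℝ)| ≤ 1 / 2 := by
      rw [abs_mul, abs_of_pos h5]
      have h7 : 2 * Real.pi / ell * |(n j : ℝ)| ≤ 2 * Real.pi / ell * K :=
        mul_le_mul_of_nonneg_left h4 h5.le
      have h8 : et ^ 3 ≤ (1 / 4) ^ 3 := pow_le_pow_left₀ het.le het1 3
      have h9 : 8 * Real.pi * et ^ 3 ≤ 8 * 3.15 * (1 / 4) ^ 3 := by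
        have h10 : 8 * Real.pi * et ^ 3 ≤ 8 * 3.15 * et ^ 3 :=
          mul_le_mul_of_nonneg_right (by linarith) (by positivity)
        have h11 : (8 * 3.15 : ℝ) * et ^ 3 ≤ 8 * 3.15 * (1 / 4) ^ 3 :=
          mul_le_mul_of_nonneg_left h8 (by norm_num)
        exact h10.trans h11
      have h12 : (8 * 3.15 : ℝ) * (1 / 4) ^ 3 ≤ 1 / 2 := by norm_num
      linarith
    have h13 := abs_le.1 h6
    nlinarith [h13.1, h13.2]
  unfold Helper49_Pauli.sq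
  rw [Fin.sum_univ_three]
  have := h1 0
  have := h1 1
  have := h1 2
  linarith

theorem bga (hT : TrgStmt) (hJ : JfdStmt) (hP : ProStmt) (hS : PsiStmt) (hU : CurStmt) :
    BgaStmt := by
  intro alpha n ha
  obtain ⟨C, hC, hp⟩ := hP (n + 1)
  refine ⟨3 * (6 + C) ^ 2 * C + 2 / alpha * C ^ 3, 1 / 4, by positivity, by norm_num,
    by norm_num, ?_⟩
  intro cut L P et l hcut hL het het1 hl hle
  have het1' : et ≤ 1 := by linarith
  have hell : 0 < L * cut := mul_pos hL hcut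
  obtain ⟨K, p, q, hK, hpm, hqs, hqt, hqd⟩ := hp (L * cut) et l het het1' hl hle
  obtain ⟨s0, t0, d0⟩ := hpm 0 (by norm_num)
  obtain ⟨s2, t2, d2⟩ := hpm 2 (by norm_num)
  obtain ⟨s3, t3, d3⟩ := hpm 3 (by norm_num)
  obtain ⟨c, hc, hcs⟩ := hS (L * cut) (et ^ 4)⁻¹ (et ^ 5)⁻¹ K _ _ _ _ (p 0) (p 2) (p 3) q
    (by positivity) (by positivity) (by positivity) (by positivity) t0 t2 t3 hqt
  obtain ⟨e, hfe, hcost⟩ := hT alpha cut L P ha hcut hL
    (Finset.Icc (fun _ : Fin 3 => -(K : ℤ)) (fun _ => (K : ℤ))) c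
    (fun m hm => freq_bound het het1 hell hK m hm)
  refine ⟨e, ?_, ?_⟩
  · have h1 : 0 ≤ 2 / alpha * (L * cut) ^ 3 := by positivity
    refine hcost.trans ((mul_le_mul_of_nonneg_left hcs h1).trans
      ((cost_bound het het1' hl hC ha hell).trans ?_))
    have h2 : 0 ≤ 3 * (6 + C) ^ 2 * C := by positivity
    have h3 : 0 ≤ (et ^ 37)⁻¹ := by positivity
    refine mul_le_mul_of_nonneg_right (mul_le_mul_of_nonneg_right ?_ h3) (by linarith)
    linarith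
  have hfld : ∀ x, (msys alpha P).fld e x =
      ![-((et ^ 4)⁻¹ / 4) * (p 2 (x 0) * deriv (p 0) (x 1) * q (x 2) +
          p 0 (x 0) * deriv (p 2) (x 1) * q (x 2)) -
          (et ^ 5)⁻¹ / 6 * (p 3 (x 0) * p 0 (x 1) * deriv q (x 2)),
        -((et ^ 5)⁻¹ / 6) * (p 0 (x 0) * p 3 (x 1) * deriv q (x 2)) +
          (et ^ 4)⁻¹ / 4 * (deriv (p 2) (x 0) * p 0 (x 1) * q (x 2) +
            deriv (p 0) (x 0) * p 2 (x 1) * q (x 2)),
        (et ^ 5)⁻¹ / 6 * (deriv (p 3) (x 0) * p 0 (x 1) * q (x 2) +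
          p 0 (x 0) * deriv (p 3) (x 1) * q (x 2))] := by
    intro x
    have h1 : (fun (x : X3) (j : Fin 3) => (∑ n ∈ Finset.Icc (fun _ : Fin 3 => -(K : ℤ))
        (fun _ => (K : ℤ)), c n j *
        cexp (I * (dot (fun j => 2 * Real.pi / (L * cut) * (n j : ℝ)) x : ℂ))).re) =
        vps (et ^ 4)⁻¹ (et ^ 5)⁻¹ (p 0) (p 2) (p 3) q := by
      funext x j
      exact hc x j
    rw [hfe x, h1]
    exact hU _ _ _ _ _ _ s0 s2 s3 hqs x
  have s0' : ContDiff ℝ (⊤ : ℕ∞) (deriv (p 0)) := (contDiff_infty_iff_deriv.1 s0).2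
  have s2' : ContDiff ℝ (⊤ : ℕ∞) (deriv (p 2)) := (contDiff_infty_iff_deriv.1 s2).2
  have s3' : ContDiff ℝ (⊤ : ℕ∞) (deriv (p 3)) := (contDiff_infty_iff_deriv.1 s3).2
  have hqs' : ContDiff ℝ (⊤ : ℕ∞) (deriv q) := (contDiff_infty_iff_deriv.1 hqs).2
  -- the error of one product
  have hd : 0 ≤ C * et ^ 6 := by positivity
  have hdC : C * et ^ 6 ≤ C := by
    have h1 : et ^ 6 ≤ 1 := pow_le_one₀ het.le het1'
    nlinarith
  have hgE : (et ^ 5)⁻¹ * (3 * (6 + C) ^ 2 * (C * et ^ 6)) ≤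
      3 * (6 + C) ^ 2 * C + 2 / alpha * C ^ 3 := by
    have h1 : (et ^ 5)⁻¹ * (3 * (6 + C) ^ 2 * (C * et ^ 6)) = 3 * (6 + C) ^ 2 * C * et := by
      field_simp
    rw [h1]
    have h2 : 0 ≤ 3 * (6 + C) ^ 2 * C := by positivity
    have h3 : 3 * (6 + C) ^ 2 * C * et ≤ 3 * (6 + C) ^ 2 * C := by
      calc 3 * (6 + C) ^ 2 * C * et ≤ 3 * (6 + C) ^ 2 * C * 1 :=
            mul_le_mul_of_nonneg_left het1' h2
        _ = 3 * (6 + C) ^ 2 * C := mul_one _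
    have h4 : 0 ≤ 2 / alpha * C ^ 3 := by positivity
    linarith
  have hbg : (et ^ 4)⁻¹ ≤ (et ^ 5)⁻¹ := by
    have h1 : et ^ 5 ≤ et ^ 4 := pow_le_pow_of_le_one het.le het1' (by norm_num)
    exact inv_anti₀ (by positivity) h1
  have hb0 : 0 ≤ (et ^ 4)⁻¹ := by positivity
  have hg0 : 0 ≤ (et ^ 5)⁻¹ := by positivity
  have ca : |-((et ^ 4)⁻¹ / 4)| ≤ (et ^ 5)⁻¹ / 3 := by
    rw [abs_neg, abs_of_nonneg (by positivity)]
    linarith
  have cb : |(et ^ 4)⁻¹ / 4| ≤ (et ^ 5)⁻¹ / 3 := by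
    rw [abs_of_nonneg (by positivity)]
    linarith
  have cg : |-((et ^ 5)⁻¹ / 6)| ≤ (et ^ 5)⁻¹ / 3 := by
    rw [abs_neg, abs_of_nonneg (by positivity)]
    linarith
  have cg' : |(et ^ 5)⁻¹ / 6| ≤ (et ^ 5)⁻¹ / 3 := by
    rw [abs_of_nonneg (by positivity)]
    linarith
  have cz : |(0 : ℝ)| ≤ (et ^ 5)⁻¹ / 3 := by
    rw [abs_zero]
    positivity
  have b6 : ∀ (P' : Prop) [Decidable P'] (v : ℝ), 0 ≤ v → v ≤ 6 →
      |(if P' then v else (0 : ℝ))| ≤ 6 := by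
    intro P' _ v h0 h6
    split_ifs
    · rw [abs_of_nonneg h0]
      exact h6
    · rw [abs_zero]
      norm_num
  have f0 : ∀ j : ℕ, |(if j = 0 then ((Nat.factorial 0 : ℕ) : ℝ) else 0)| ≤ 6 :=
    fun j => b6 _ _ (by positivity) (by norm_num [Nat.factorial])
  have f2 : ∀ j : ℕ, |(if j = 2 then ((Nat.factorial 2 : ℕ) : ℝ) else 0)| ≤ 6 :=
    fun j => b6 _ _ (by positivity) (by norm_num [Nat.factorial])
  have f3 : ∀ j : ℕ, |(if j = 3 then ((Nat.factorial 3 : ℕ) : ℝ) else 0)| ≤ 6 :=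
    fun j => b6 _ _ (by positivity) (by norm_num [Nat.factorial])
  have fq : ∀ j : ℕ, |(if j = 0 then (1 : ℝ) else 0)| ≤ 6 :=
    fun j => b6 _ _ (by norm_num) (by norm_num)
  have hs : ∀ (f : ℝ → ℝ) (j : ℕ) (z : ℝ), iteratedDeriv j (deriv f) z =
      iteratedDeriv (j + 1) f z := by
    intro f j z
    rw [iteratedDeriv_succ']
  intro cc i j k hn z hz
  obtain rfl | rfl | rfl : cc = 0 ∨ cc = 1 ∨ cc = 2 := by
    fin_cases cc <;> simp
  · rw [jets3 hJ (msys alpha P) e 0 (-((et ^ 4)⁻¹ / 4)) (-((et ^ 4)⁻¹ / 4)) (-((et ^ 5)⁻¹ / 6))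
      (p 2) (p 0) (p 3) (deriv (p 0)) (deriv (p 2)) (p 0) q q (deriv q)
      s2 s0 s3 s0' s2' s0 hqs hqs hqs'
      (by
        intro x
        rw [hfld x]
        simp only [Matrix.cons_val_zero]
        ring) i j k z, hs, hs, hs]
    have hid : idl et 0 i j k =
        -((et ^ 4)⁻¹ / 4) * ((if i = 2 then ((Nat.factorial 2 : ℕ) : ℝ) else 0) *
          (if j + 1 = 0 then ((Nat.factorial 0 : ℕ) : ℝ) else 0) * (if k = 0 then 1 else 0)) +
        -((et ^ 4)⁻¹ / 4) * ((if i = 0 then ((Nat.factorial 0 : ℕ) : ℝ) else 0) *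
          (if j + 1 = 2 then ((Nat.factorial 2 : ℕ) : ℝ) else 0) * (if k = 0 then 1 else 0)) +
        -((et ^ 5)⁻¹ / 6) * ((if i = 3 then ((Nat.factorial 3 : ℕ) : ℝ) else 0) *
          (if j = 0 then ((Nat.factorial 0 : ℕ) : ℝ) else 0) *
          (if k + 1 = 0 then 1 else 0)) := by
      unfold idl
      by_cases hk : k = 0
      · by_cases hi : i = 0
        · by_cases hj : j = 1
          · simp [hk, hi, hj, Nat.factorial]
            ring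
          · simp [hk, hi, hj]
        · simp [hk, hi]
      · simp [hk]
    rw [hid]
    exact comb3
      (prod_err hC.le hd hdC (d2 i (by omega)) (d0 (j + 1) (by omega)) (hqd k (by omega) z hz)
        (f2 i) (f0 (j + 1)) (fq k))
      (prod_err hC.le hd hdC (d0 i (by omega)) (d2 (j + 1) (by omega)) (hqd k (by omega) z hz)
        (f0 i) (f2 (j + 1)) (fq k))
      (prod_err hC.le hd hdC (d3 i (by omega)) (d0 j (by omega)) (hqd (k + 1) (by omega) z hz)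
        (f3 i) (f0 j) (fq (k + 1))) ca ca cg hgE
  · rw [jets3 hJ (msys alpha P) e 1 (-((et ^ 5)⁻¹ / 6)) ((et ^ 4)⁻¹ / 4) ((et ^ 4)⁻¹ / 4)
      (p 0) (deriv (p 2)) (deriv (p 0)) (p 3) (p 0) (p 2) (deriv q) q q
      s0 s2' s0' s3 s0 s2 hqs' hqs hqs
      (by
        intro x
        rw [hfld x]
        simp only [Matrix.cons_val_one, Matrix.cons_val_zero]
        ring) i j k z, hs, hs, hs]
    have hid : idl et 1 i j k =
        -((et ^ 5)⁻¹ / 6) * ((if i = 0 then ((Nat.factorial 0 : ℕ) : ℝ) else 0) *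
          (if j = 3 then ((Nat.factorial 3 : ℕ) : ℝ) else 0) * (if k + 1 = 0 then 1 else 0)) +
        (et ^ 4)⁻¹ / 4 * ((if i + 1 = 2 then ((Nat.factorial 2 : ℕ) : ℝ) else 0) *
          (if j = 0 then ((Nat.factorial 0 : ℕ) : ℝ) else 0) * (if k = 0 then 1 else 0)) +
        (et ^ 4)⁻¹ / 4 * ((if i + 1 = 0 then ((Nat.factorial 0 : ℕ) : ℝ) else 0) *
          (if j = 2 then ((Nat.factorial 2 : ℕ) : ℝ) else 0) *
          (if k = 0 then 1 else 0)) := by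
      unfold idl
      by_cases hk : k = 0
      · by_cases hi : i = 1
        · by_cases hj : j = 0
          · simp [hk, hi, hj, Nat.factorial]
            ring
          · simp [hk, hi, hj]
        · simp [hk, hi]
      · simp [hk]
    rw [hid]
    exact comb3
      (prod_err hC.le hd hdC (d0 i (by omega)) (d3 j (by omega)) (hqd (k + 1) (by omega) z hz)
        (f0 i) (f3 j) (fq (k + 1)))
      (prod_err hC.le hd hdC (d2 (i + 1) (by omega)) (d0 j (by omega)) (hqd k (by omega) z hz)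
        (f2 (i + 1)) (f0 j) (fq k))
      (prod_err hC.le hd hdC (d0 (i + 1) (by omega)) (d2 j (by omega)) (hqd k (by omega) z hz)
        (f0 (i + 1)) (f2 j) (fq k)) cg cb cb hgE
  · rw [jets3 hJ (msys alpha P) e 2 ((et ^ 5)⁻¹ / 6) ((et ^ 5)⁻¹ / 6) 0
      (deriv (p 3)) (p 0) (p 0) (p 0) (deriv (p 3)) (p 0) q q q
      s3' s0 s0 s0 s3' s0 hqs hqs hqs
      (by
        intro x
        rw [hfld x]
        simp only [Matrix.cons_val]
        ring) i j k z, hs, hs]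
    have hid : idl et 2 i j k =
        (et ^ 5)⁻¹ / 6 * ((if i + 1 = 3 then ((Nat.factorial 3 : ℕ) : ℝ) else 0) *
          (if j = 0 then ((Nat.factorial 0 : ℕ) : ℝ) else 0) * (if k = 0 then 1 else 0)) +
        (et ^ 5)⁻¹ / 6 * ((if i = 0 then ((Nat.factorial 0 : ℕ) : ℝ) else 0) *
          (if j + 1 = 3 then ((Nat.factorial 3 : ℕ) : ℝ) else 0) * (if k = 0 then 1 else 0)) +
        0 * ((if i = 0 then ((Nat.factorial 0 : ℕ) : ℝ) else 0) *
          (if j = 0 then ((Nat.factorial 0 : ℕ) : ℝ) else 0) *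
          (if k = 0 then 1 else 0)) := by
      unfold idl
      by_cases hk : k = 0
      · by_cases hi : i = 2
        · by_cases hj : j = 0
          · simp [hk, hi, hj, Nat.factorial]
          · simp [hk, hi, hj]
        · by_cases hi0 : i = 0
          · by_cases hj : j = 2
            · simp [hk, hi0, hj, Nat.factorial]
            · simp [hk, hi0, hj]
          · simp [hk, hi, hi0]
      · simp [hk]
    rw [hid]
    exact comb3
      (prod_err hC.le hd hdC (d3 (i + 1) (by omega)) (d0 j (by omega)) (hqd k (by omega) z hz)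
        (f3 (i + 1)) (f0 j) (fq k))
      (prod_err hC.le hd hdC (d0 i (by omega)) (d3 (j + 1) (by omega)) (hqd k (by omega) z hz)
        (f0 i) (f3 (j + 1)) (fq k))
      (prod_err hC.le hd hdC (d0 i (by omega)) (d0 j (by omega)) (hqd k (by omega) z hz)
        (f0 i) (f0 j) (fq k)) cg' cg' cz hgE

end Pool.Agent.FTU.H64
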